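import Pool.Agent.W182.PW.Tup

set_option autoImplicit false

/-!
# Almost prime Cunningham chains of both kinds in all windows around a positive proportion of the
integers

Let `s = 1` (first kind) or `s = -1` (second kind). For every `k` there are `r` and `c₁, c₂, K > 0`
such that a positive proportion of all integers `n` is regular: every interval `(a, b]` with
`a ≤ n ≤ b` and `K log ^ (k + 1) n ≤ b - a ≤ n` contains between `c₁ (b - a) / log ^ (k + 1) n` and
`c₂ (b - a) / log ^ (k + 1) n` primes `p` for which the next `k` terms `2 ^ j (p + s) - s`,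
`1 ≤ j ≤ k`, of the sequence `x ↦ 2 x + s` have at most `r` prime factors, all larger than
`n ^ (1 / r)`.
-/

namespace Pool.Agent.Results.MP_c183ae_nt.RegularWindows

open Finset Filter

/-- The `j`-th term after `p` of the sequence `x ↦ 2 x + s`. -/
def term (s : ℤ) (j p : ℕ) : ℤ := 2 ^ j * ((p : ℤ) + s) - s

/-- `p` is prime and each of the next `k` terms of the sequence `x ↦ 2 x + s` has at most `r` prime
factors (with multiplicity), all of them larger than `z`. -/
def AlmostChain (s : ℤ) (k r : ℕ) (z : ℝ) (p : ℕ) : Prop :=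
  p.Prime ∧ ∀ j : ℕ, 1 ≤ j → j ≤ k →
    (term s j p).natAbs.primeFactorsList.length ≤ r ∧
    ∀ q : ℕ, q.Prime → (q : ℤ) ∣ term s j p → z < (q : ℝ)

open Classical in
/-- `n` is regular (chains of length `k + 1`). -/
def Regular (s : ℤ) (k r : ℕ) (c₁ c₂ K : ℝ) (n : ℕ) : Prop :=
  ∀ a b : ℕ, a ≤ n → n ≤ b → K * Real.log n ^ (k + 1) ≤ (b : ℝ) - a → (b : ℝ) - a ≤ n →
    c₁ * ((b : ℝ) - a) / Real.log n ^ (k + 1) ≤
      (((Finset.Ioc a b).filter
        (fun p => AlmostChain s k r ((n : ℝ) ^ (1 / (r : ℝ))) p)).card : ℝ) ∧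
    (((Finset.Ioc a b).filter
        (fun p => AlmostChain s k r ((n : ℝ) ^ (1 / (r : ℝ))) p)).card : ℝ) ≤
      c₂ * ((b : ℝ) - a) / Real.log n ^ (k + 1)

open Pool.Agent.W182.PW

lemma chain_eq (s : ℤ) (k : ℕ) :
    PrimeAlmost (fun i : Fin k => lin (2 ^ (i.val + 1)) (s * (2 ^ (i.val + 1) - 1))) =
      AlmostChain s k := by
  funext r z p
  apply propext
  unfold PrimeAlmost AlmostChain
  have h1 : ∀ j : ℕ, ((lin (2 ^ j) (s * (2 ^ j - 1))).eval (p : ℤ)) = term s j p := by
    intro j
    unfold term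
    rw [lin_eval]
    push_cast
    ring
  constructor
  · rintro ⟨h2, h3⟩
    refine ⟨h2, fun j hj1 hj2 => ?_⟩
    obtain ⟨i, rfl⟩ : ∃ i, j = i + 1 := ⟨j - 1, by omega⟩
    have h4 := h3 ⟨i, by omega⟩
    simp only [h1] at h4
    exact h4
  · rintro ⟨h2, h3⟩
    refine ⟨h2, fun i => ?_⟩
    have h4 := h3 (i.val + 1) (by omega) (by have := i.isLt; omega)
    simp only [h1]
    exact h4

open Classical in
/-- **Almost prime Cunningham chains of both kinds: regular windows.** For `s = 1` and for `s = -1`,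
for every `k`, for some `r` and positive `c₁, c₂, K, κ` and all large `x` at least `κ x` of the
integers `n` in `[1, x]` are regular. -/
theorem result (s : ℤ) (hs : s = 1 ∨ s = -1) (k : ℕ) :
    ∃ (r : ℕ) (c₁ c₂ K κ : ℝ), 0 < c₁ ∧ 0 < c₂ ∧ 0 < K ∧ 0 < κ ∧
    ∀ᶠ x : ℕ in atTop,
      κ * x ≤ (((Finset.Icc 1 x).filter (fun n => Regular s k r c₁ c₂ K n)).card : ℝ) := by
  have hss : s * s = 1 := by rcases hs with rfl | rfl <;> norm_num
  have h := main_lin (k := k) (fun i => 2 ^ (i.val + 1)) (fun i => s * (2 ^ (i.val + 1) - 1))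
    (fun _ => by positivity)
    (fun i => ⟨1, -s, by
      have e : (1 : ℤ) * ((2 ^ (i.val + 1) : ℕ) : ℤ) + -s * (s * (2 ^ (i.val + 1) - 1)) =
          (2 ^ (i.val + 1) : ℤ) - s * s * (2 ^ (i.val + 1) - 1) := by
        push_cast
        ring
      rw [e, hss]
      ring⟩)
    (fun i j hij _ => by
      apply Fin.ext
      have h1 := Nat.pow_right_injective le_rfl hij
      simpa using h1)
    (fun i h => by
      have h1 : 1 < 2 ^ (i.val + 1) := Nat.one_lt_two_pow (by omega)
      omega)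
    (by
      intro p hp
      have hp2 := hp.two_le
      obtain ⟨m, hm1, hm2⟩ : ∃ m : ℕ, ¬ p ∣ m ∧ (p : ℤ) ∣ (m : ℤ) + s := by
        rcases hs with rfl | rfl
        · exact ⟨p - 1, Nat.not_dvd_of_pos_of_lt (by omega) (by omega), 1, by
            push_cast [Nat.cast_sub hp.one_le]
            ring⟩
        · exact ⟨1, Nat.not_dvd_of_pos_of_lt one_pos (by omega), 0, by norm_num⟩
      refine ⟨m, hm1, fun i h => ?_⟩
      have e : ((2 ^ (i.val + 1) : ℕ) : ℤ) * (m : ℤ) + s * (2 ^ (i.val + 1) - 1) =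
          2 ^ (i.val + 1) * ((m : ℤ) + s) - s := by
        push_cast
        ring
      rw [e] at h
      have h2 : (p : ℤ) ∣ s := by
        have := dvd_sub (Dvd.dvd.mul_left hm2 (2 ^ (i.val + 1))) h
        simpa using this
      have h3 : (p : ℤ) ∣ 1 := by
        rw [← hss]
        exact Dvd.dvd.mul_left h2 s
      have h4 : p ∣ 1 := by exact_mod_cast h3
      exact hp.one_lt.ne' (Nat.dvd_one.1 h4))
  rw [RegularP_eq _ _ (chain_eq s k)] at h
  exact h

end Pool.Agent.Results.MP_c183ae_nt.RegularWindows
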